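import Pool.Agent.H34.RF

namespace Pool.Agent.Results.MP_6ed562_lc.NotIso
open Pool.Agent.H34.WeakP

theorem result : ¬ ∃ e : Quot Iso ≃ Quot (fun u v => Comfort u v ∧ Comfort v u),
    ∀ u v u' v', e (Quot.mk _ u) = Quot.mk _ u' → e (Quot.mk _ v) = Quot.mk _ v' →
      (RK u v ↔ Comfort u' v') := by
  rintro ⟨e, h⟩
  refine not_iso ⟨fun u => (e (Quot.mk _ u)).out, fun u v =>
    h _ _ _ _ (Quot.out_eq _).symm (Quot.out_eq _).symm, fun w => ⟨(e.symm (Quot.mk _ w)).out, ?_⟩⟩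
  have a : e (Quot.mk _ (e.symm (Quot.mk _ w)).out) = Quot.mk _ w := by simp
  exact ⟨(h _ _ _ _ a (Quot.out_eq _).symm).1 ⟨id, rfl⟩, (h _ _ _ _ (Quot.out_eq _).symm a).1 ⟨id, rfl⟩⟩

end Pool.Agent.Results.MP_6ed562_lc.NotIso
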